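import Pool.Agent.Helper9.CC.Stm

/-!
Project CC (helper9), package NEF: the nef cone.
-/

set_option autoImplicit false

namespace Pool.Agent.Helper36.CC

open FF Module MvPolynomial Pool.Agent.Helper9.FJ Pool.Agent.Helper9.PP Pool.Agent.Helper9.FL
  Pool.Agent.Helper9.CC

theorem nef : S_NEF := by
  intro K _ _ _ l r E μ h
  apply Set.Subset.antisymm
  · refine closure_minimal ?_ ?_
    · rintro x ⟨n, c, v, hc, hv, rfl⟩
      have h1 : ∀ i, (∀ j, 0 ≤ (v i).1 j) ∧ 0 ≤ ∑ j, (v i).1 j * (μ j : ℝ) + (v i).2 := by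
        intro i
        obtain ⟨a, b, hab, hv⟩ := hv i
        rw [hv]
        exact ⟨fun j => Nat.cast_nonneg _, ((h a b).1 hab).2.le⟩
      have e1 : ∀ j, (∑ i, c i • v i).1 j = ∑ i, c i * (v i).1 j := by
        intro j
        rw [Prod.fst_sum, Finset.sum_apply]
        rfl
      have e2 : (∑ i, c i • v i).2 = ∑ i, c i * (v i).2 := by
        rw [Prod.snd_sum]
        rfl
      refine ⟨fun j => ?_, ?_⟩
      · rw [e1]
        exact Finset.sum_nonneg fun i _ => mul_nonneg (hc i) ((h1 i).1 j)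
      · have e3 : ∑ j, (∑ i, c i • v i).1 j * (μ j : ℝ) + (∑ i, c i • v i).2 =
            ∑ i, c i * (∑ j, (v i).1 j * (μ j : ℝ) + (v i).2) := by
          simp only [e1, e2, mul_add, Finset.sum_add_distrib, Finset.mul_sum, Finset.sum_mul]
          rw [Finset.sum_comm]
          simp only [mul_assoc]
        rw [e3]
        exact Finset.sum_nonneg fun i _ => mul_nonneg (hc i) (h1 i).2
    · have e : {x : NS l | (∀ j, 0 ≤ x.1 j) ∧ 0 ≤ ∑ j, x.1 j * (μ j : ℝ) + x.2} =
          (⋂ j, {x : NS l | 0 ≤ x.1 j}) ∩ {x : NS l | 0 ≤ ∑ j, x.1 j * (μ j : ℝ) + x.2} := by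
        ext x
        simp
      rw [e]
      exact (isClosed_iInter fun j => isClosed_le continuous_const (by fun_prop)).inter
        (isClosed_le continuous_const (by fun_prop))
  · rintro x ⟨hx1, hx2⟩
    obtain ⟨P, -⟩ := exists_place (k := ℂ) (K := K)
    have hD : (0 : ℝ) < (P.deg : ℝ) := by exact_mod_cast P.deg_pos
    set D : ℝ := (P.deg : ℝ) with hDd
    set M : ℝ := ∑ j, |(μ j : ℝ)| with hM
    have hM0 : 0 ≤ M := Finset.sum_nonneg fun j _ => abs_nonneg _
    rw [Nef, Metric.mem_closure_iff]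
    intro ε hε
    obtain ⟨N, hN⟩ := exists_nat_gt ((M + D + 1) / ε)
    have hN0 : (0 : ℝ) < N := lt_of_le_of_lt (by positivity) hN
    have hNε : (M + D + 1) / N < ε := by
      rw [div_lt_iff₀ hN0]
      rw [div_lt_iff₀ hε] at hN
      linarith
    set a : Fin l → ℕ := fun j => ⌊N * x.1 j⌋₊ + 1 with ha
    set z : ℤ := ⌊(N * x.2 + M) / D⌋ + 1 with hz
    set b : Place ℂ K →₀ ℤ := Finsupp.single P z with hb
    have ha1 : ∀ j, (N * x.1 j : ℝ) < a j := fun j => by
      rw [ha]
      push_cast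
      exact Nat.lt_floor_add_one _
    have ha2 : ∀ j, (a j : ℝ) ≤ N * x.1 j + 1 := fun j => by
      rw [ha]
      push_cast
      have := Nat.floor_le (mul_nonneg hN0.le (hx1 j))
      linarith
    have hbz : (ddeg b : ℝ) = z * D := by
      rw [hb, ddeg_single, hDd]
      push_cast
      rfl
    have hz1 : N * x.2 + M < z * D := by
      rw [← div_lt_iff₀ hD, hz]
      push_cast
      exact Int.lt_floor_add_one _
    have hz2 : z * D ≤ N * x.2 + M + D := by
      have h1 : (⌊(N * x.2 + M) / D⌋ : ℝ) * D ≤ N * x.2 + M := by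
        rw [← le_div_iff₀ hD]
        exact Int.floor_le _
      rw [hz]
      push_cast
      linarith
    have hpos : 0 < ∑ j, a j * (μ j : ℝ) + ddeg b := by
      rw [hbz]
      have h1 : ∑ j, (N * x.1 j) * (μ j : ℝ) - M ≤ ∑ j, a j * (μ j : ℝ) := by
        rw [hM, ← Finset.sum_sub_distrib]
        refine Finset.sum_le_sum fun j _ => ?_
        have h2 : |((a j : ℝ) - N * x.1 j) * (μ j : ℝ)| ≤ |(μ j : ℝ)| := by
          rw [abs_mul]
          refine mul_le_of_le_one_left (abs_nonneg _) ?_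
          rw [abs_of_pos (by linarith [ha1 j])]
          linarith [ha2 j]
        have h3 := neg_le_of_abs_le h2
        linarith
      have h4 : ∑ j, (N * x.1 j) * (μ j : ℝ) = N * ∑ j, x.1 j * (μ j : ℝ) := by
        rw [Finset.mul_sum]
        exact Finset.sum_congr rfl fun j _ => by ring
      have h5 : 0 ≤ N * (∑ j, x.1 j * (μ j : ℝ) + x.2) := mul_nonneg hN0.le hx2
      rw [h4] at h1
      linarith
    refine ⟨(1 / N : ℝ) • cls a b, ⟨1, fun _ => 1 / N, fun _ => cls a b,
      fun _ => by positivity, fun _ => ⟨a, b, (h a b).2 ⟨fun j => Nat.succ_pos _, hpos⟩, rfl⟩, by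
        simp⟩, ?_⟩
    rw [dist_comm, Prod.dist_eq]
    refine lt_of_le_of_lt ?_ hNε
    refine max_le ?_ ?_
    · rw [dist_pi_le_iff (by positivity)]
      intro j
      change dist ((1 / N : ℝ) * (a j : ℝ)) (x.1 j) ≤ _
      rw [Real.dist_eq]
      have e : (1 / N : ℝ) * (a j : ℝ) - x.1 j = ((a j : ℝ) - N * x.1 j) / N := by
        field_simp
      rw [e, abs_div, abs_of_pos hN0]
      refine div_le_div_of_nonneg_right ?_ hN0.le
      rw [abs_of_pos (by linarith [ha1 j])]
      linarith [ha2 j]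
    · change dist ((1 / N : ℝ) * (ddeg b : ℝ)) x.2 ≤ _
      rw [Real.dist_eq, hbz]
      have e : (1 / N : ℝ) * (z * D) - x.2 = (z * D - N * x.2) / N := by
        field_simp
      rw [e, abs_div, abs_of_pos hN0]
      refine div_le_div_of_nonneg_right ?_ hN0.le
      rw [abs_of_pos (by linarith)]
      linarith

end Pool.Agent.Helper36.CC
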